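import Pool.Agent.R130.BraidLambda

/-!
# MP_31c3fe_co, Q1: braid graphs of type `Λ` have geodetic number two
-/

set_option autoImplicit false

namespace Pool.Agent.Results.MP_31c3fe_co.GeodeticTwo

open Pool.Agent.R130.Braid Pool.Agent.R130.Puzzle

/-- `I(u,v)`: the vertices on shortest paths from `u` to `v`. -/
def interval {V : Type*} (H : SimpleGraph V) (u v : V) : Set V :=
  {w | H.dist u w + H.dist w v = H.dist u v}

/-- The geodetic closure of `X`: the union of the intervals `I(u,v)` with `u, v ∈ X`. -/
def geodeticClosure {V : Type*} (H : SimpleGraph V) (X : Set V) : Set V :=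
  {w | ∃ u ∈ X, ∃ v ∈ X, w ∈ interval H u v}

/-- `k` is the geodetic number of `H`: the least size of a set whose geodetic closure is the whole
vertex set. -/
def IsGeodeticNumber {V : Type*} (H : SimpleGraph V) (k : ℕ) : Prop :=
  IsLeast {k | ∃ X : Finset V, X.card = k ∧ geodeticClosure H (X : Set V) = Set.univ} k

/-- **In a Coxeter system of type `Λ`, every braid graph with at least two vertices has geodetic
number two**, and there are two vertices `u, v` with `I(u,v)` equal to the whole braid class. -/
theorem result {B W : Type*} {M : CoxeterMatrix B} [Group W] (cs : CoxeterSystem M W)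
    (hsl : SimplyLaced M) (htf : TriangleFree M) (α : List B) (hα : cs.IsReduced α)
    (hnt : Nontrivial (braidClass M α)) :
    (braidGraph M α).Connected ∧ IsGeodeticNumber (braidGraph M α) 2 ∧
      ∃ u v : braidClass M α, interval (braidGraph M α) u v = Set.univ := by
  classical
  have hconn : (braidGraph M α).Connected := braid_connected (cs := cs) hsl hα
  obtain ⟨u, v, huv⟩ := antipodal_braid hsl htf hα
  have hint : interval (braidGraph M α) u v = Set.univ := by
    rw [Set.eq_univ_iff_forall]
    intro w
    change (braidGraph M α).dist u w + (braidGraph M α).dist w v = (braidGraph M α).dist u v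
    rw [dist_braid hsl htf hα, dist_braid hsl htf hα, dist_braid hsl htf hα,
      ← Finset.card_union_of_disjoint]
    · congr 1
      rw [← Finset.filter_or]
      apply Finset.filter_congr
      intro p hp
      have h := huv p hp
      constructor
      · intro _; exact h
      · intro _
        by_cases h1 : chiW hα u p = chiW hα w p
        · right
          rw [← h1]
          exact h
        · left; exact h1
    · rw [Finset.disjoint_left]
      intro p h1 h2
      rw [Finset.mem_filter] at h1 h2
      have h := huv p h1.1
      have h1' := h1.2
      have h2' := h2.2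
      revert h h1' h2'
      cases chiW hα u p <;> cases chiW hα w p <;> cases chiW hα v p <;> simp
  have hne : u ≠ v := by
    rintro rfl
    obtain ⟨a, b, hab⟩ := hnt
    have key : ∀ w, w = u := by
      intro w
      have h1 : w ∈ interval (braidGraph M α) u u := by rw [hint]; trivial
      change (braidGraph M α).dist u w + (braidGraph M α).dist w u = (braidGraph M α).dist u u at h1
      rw [SimpleGraph.dist_self] at h1
      have h2 : (braidGraph M α).dist w u = 0 := by omega
      exact hconn.dist_eq_zero_iff.mp h2
    exact hab ((key a).trans (key b).symm)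
  refine ⟨hconn, ⟨⟨{u, v}, Finset.card_pair hne, ?_⟩, ?_⟩, u, v, hint⟩
  · rw [Set.eq_univ_iff_forall]
    intro w
    refine ⟨u, by simp, v, by simp, ?_⟩
    rw [hint]
    trivial
  · rintro k ⟨X, hk, hX⟩
    by_contra hcon
    obtain ⟨a, b, hab⟩ := hnt
    have ha : a ∈ geodeticClosure (braidGraph M α) (X : Set (braidClass M α)) := by
      rw [hX]; trivial
    have hb : b ∈ geodeticClosure (braidGraph M α) (X : Set (braidClass M α)) := by
      rw [hX]; trivial
    have hle : X.card ≤ 1 := by omega
    rw [Finset.card_le_one] at hle
    have key : ∀ w ∈ geodeticClosure (braidGraph M α) (X : Set (braidClass M α)), w ∈ X := by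
      rintro w ⟨x, hx, y, hy, hw⟩
      have hxy : x = y := hle x (by simpa using hx) y (by simpa using hy)
      subst hxy
      change (braidGraph M α).dist x w + (braidGraph M α).dist w x = (braidGraph M α).dist x x at hw
      rw [SimpleGraph.dist_self] at hw
      have h2 : (braidGraph M α).dist w x = 0 := by omega
      rw [hconn.dist_eq_zero_iff.mp h2]
      simpa using hx
    exact hab (hle a (key a ha) b (key b hb))

end Pool.Agent.Results.MP_31c3fe_co.GeodeticTwo
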